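import Mathlib

namespace Pool.Agent.H.MP_7a0c2d_lc

open Classical Filter Topology Finset

theorem geo1 {q : ℝ} (h0 : 0 ≤ q) (h1 : q < 1) (M M' : ℕ) :
    ∑ n ∈ Ico M M', q ^ n ≤ (1 - q)⁻¹ * q ^ M := by
  have := geom_sum_Ico_le_of_lt_one (m := M) (n := M') h0 h1
  rwa [div_eq_inv_mul] at this

theorem geo2 {q : ℝ} (h0 : 0 < q) (h1 : q < 1) (M M' : ℕ) :
    ∑ n ∈ Ico M M', q ^ M' * (q⁻¹) ^ n ≤ (1 - q)⁻¹ := by
  have h2 : 0 < 1 - q := by linarith
  induction M' with
  | zero => simp; linarith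
  | succ M' ih =>
    by_cases h : M ≤ M'
    · rw [Finset.sum_Ico_succ_top h]
      have e : ∑ n ∈ Ico M M', q ^ (M' + 1) * (q⁻¹) ^ n =
          q * ∑ n ∈ Ico M M', q ^ M' * (q⁻¹) ^ n := by
        rw [Finset.mul_sum]
        exact Finset.sum_congr rfl fun n _ => by ring
      have e2 : q ^ (M' + 1) * (q⁻¹) ^ M' = q := by
        rw [pow_succ, inv_pow]; field_simp
      rw [e, e2]
      have e3 : (1 - q)⁻¹ * (1 - q) = 1 := inv_mul_cancel₀ h2.ne'
      nlinarith [mul_le_mul_of_nonneg_left ih h0.le]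
    · rw [Finset.Ico_eq_empty (by omega)]
      simp; linarith

theorem good_step {α : ℝ} (hα : 1 < |α|) (φ : ℕ → ℝ → ℝ) (hc : ∀ i, Continuous (φ i))
    (hI : ∀ i u v, |∫ x in u..v, φ i x| ≤ 1) (s : ℕ → ℝ) (T M M' : ℕ) (hM : M < M') (c : ℝ) :
    ∃ c', c ≤ c' ∧ c' + |α|⁻¹ ^ M' ≤ c + |α|⁻¹ ^ M ∧
      ∑ i ∈ range T, s i * ∑ n ∈ Ico M M', φ i (c' * α ^ n) ≤
        (1 - |α|⁻¹)⁻¹ ^ 2 * ∑ i ∈ range T, |s i| := by
  set q := |α|⁻¹ with hq
  have q0 : 0 < q := by positivity
  have q1 : q < 1 := inv_lt_one_of_one_lt₀ hα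
  have hα0 : α ≠ 0 := by
    intro h; rw [h, abs_zero] at hα; linarith
  set l := q ^ M - q ^ M' with hl
  have hl1 : q ^ M * (1 - q) ≤ l := by
    have : q ^ M' ≤ q ^ (M + 1) := pow_le_pow_of_le_one q0.le q1.le hM
    rw [pow_succ] at this
    nlinarith
  have hqM : 0 < q ^ M := by positivity
  have h1q : 0 < 1 - q := by linarith
  have hl0 : 0 < l := lt_of_lt_of_le (by positivity) hl1
  set g : ℝ → ℝ := fun x => ∑ i ∈ range T, s i * ∑ n ∈ Ico M M', φ i (x * α ^ n) with hg
  have hc2 : ∀ i n, Continuous fun x => φ i (x * α ^ n) := fun i n =>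
    (hc i).comp (continuous_id.mul continuous_const)
  have hc3 : ∀ i, Continuous fun x => ∑ n ∈ Ico M M', φ i (x * α ^ n) := fun i =>
    continuous_finsetSum _ fun n _ => hc2 i n
  have hgc : Continuous g := continuous_finsetSum _ fun i _ => continuous_const.mul (hc3 i)
  obtain ⟨c', hc', he⟩ := exists_eq_const_mul_intervalIntegral_of_nonneg (f := g)
    (g := fun _ => (1 : ℝ)) (μ := MeasureTheory.volume) (a := c) (b := c + l) hgc.continuousOn
    (continuous_const.intervalIntegrable _ _) (fun _ _ => zero_le_one)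
  rw [Set.uIcc_of_le (by linarith)] at hc'
  simp only [mul_one, intervalIntegral.integral_const, add_sub_cancel_left, smul_eq_mul] at he
  refine ⟨c', hc'.1, by have := hc'.2; linarith, ?_⟩
  have hint : ∫ x in c..c + l, g x ≤ (∑ i ∈ range T, |s i|) * ((1 - q)⁻¹ * q ^ M) := by
    simp only [hg]
    rw [intervalIntegral.integral_finsetSum
      (f := fun i x => s i * ∑ n ∈ Ico M M', φ i (x * α ^ n))
      (fun i _ => (continuous_const.mul (hc3 i)).intervalIntegrable _ _), Finset.sum_mul]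
    apply Finset.sum_le_sum
    intro i _
    rw [intervalIntegral.integral_const_mul, intervalIntegral.integral_finsetSum
      (fun n _ => (hc2 i n).intervalIntegrable _ _)]
    refine (le_abs_self _).trans ?_
    rw [abs_mul]
    apply mul_le_mul_of_nonneg_left _ (abs_nonneg _)
    refine (Finset.abs_sum_le_sum_abs _ _).trans (le_trans ?_ (geo1 q0.le q1 M M'))
    apply Finset.sum_le_sum
    intro n _
    rw [intervalIntegral.integral_comp_mul_right (fun x => φ i x) (pow_ne_zero n hα0),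
      smul_eq_mul, abs_mul, abs_inv, abs_pow, ← inv_pow]
    exact mul_le_of_le_one_right (by positivity) (hI i _ _)
  show g c' ≤ _
  rw [he] at hint
  have hS : 0 ≤ ∑ i ∈ range T, |s i| := Finset.sum_nonneg fun i _ => abs_nonneg _
  by_contra hcon
  push Not at hcon
  have a1 : (1 - q)⁻¹ ^ 2 * (∑ i ∈ range T, |s i|) * l < g c' * l :=
    mul_lt_mul_of_pos_right hcon hl0
  have a2 : (1 - q)⁻¹ ^ 2 * (∑ i ∈ range T, |s i|) * (q ^ M * (1 - q)) ≤
      (1 - q)⁻¹ ^ 2 * (∑ i ∈ range T, |s i|) * l :=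
    mul_le_mul_of_nonneg_left hl1 (by positivity)
  have a3 : (1 - q)⁻¹ ^ 2 * (∑ i ∈ range T, |s i|) * (q ^ M * (1 - q)) =
      (∑ i ∈ range T, |s i|) * ((1 - q)⁻¹ * q ^ M) := by
    field_simp
  linarith

theorem bad_step {α : ℝ} (hα : 1 < |α|) {R : ℕ} (hR : 2 ≤ |α| ^ R) (M : ℕ) (c : ℝ) :
    ∃ c', c ≤ c' ∧ c' + |α|⁻¹ ^ (M + 2 * R) ≤ c + |α|⁻¹ ^ M ∧
      ∃ m : ℤ, c' * α ^ (M + R) = m + 1 / 2 := by
  set q := |α|⁻¹ with hq
  have q0 : 0 < q := by positivity
  have hα0 : α ≠ 0 := by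
    intro h; rw [h, abs_zero] at hα; linarith
  have hβ : α ^ (M + R) ≠ 0 := pow_ne_zero _ hα0
  have hqR : q ^ R ≤ 1 / 2 := by
    rw [hq, inv_pow, one_div]
    exact inv_anti₀ (by norm_num) hR
  have h1 : q ^ (M + R) + q ^ (M + 2 * R) ≤ q ^ M := by
    have e : q ^ (M + R) + q ^ (M + 2 * R) = q ^ M * (q ^ R + q ^ R * q ^ R) := by ring
    rw [e]
    apply mul_le_of_le_one_right (by positivity)
    have : 0 < q ^ R := by positivity
    nlinarith
  have h2 : q ^ (M + R) = |α ^ (M + R)|⁻¹ := by rw [abs_pow, inv_pow]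
  set β := α ^ (M + R) with hβd
  rcases lt_or_gt_of_ne hβ with h | h
  · refine ⟨((⌊c * β - 1 / 2⌋ : ℤ) + 1 / 2) / β, ?_, ?_, ⌊c * β - 1 / 2⌋, by field_simp⟩
    · rw [le_div_iff_of_neg h]
      have := Int.floor_le (c * β - 1 / 2)
      linarith
    · have a1 := Int.lt_floor_add_one (c * β - 1 / 2)
      rw [abs_of_neg h] at h2
      have : ((⌊c * β - 1 / 2⌋ : ℤ) + 1 / 2) / β ≤ c + (-β)⁻¹ := by
        rw [div_le_iff_of_neg h]
        have : (c + (-β)⁻¹) * β = c * β - 1 := by field_simp; ring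
        linarith
      linarith
  · refine ⟨((⌈c * β - 1 / 2⌉ : ℤ) + 1 / 2) / β, ?_, ?_, ⌈c * β - 1 / 2⌉, by field_simp⟩
    · rw [le_div_iff₀ h]
      have := Int.le_ceil (c * β - 1 / 2)
      linarith
    · have a1 := Int.ceil_lt_add_one (c * β - 1 / 2)
      rw [abs_of_pos h] at h2
      have : ((⌈c * β - 1 / 2⌉ : ℤ) + 1 / 2) / β ≤ c + β⁻¹ := by
        rw [div_le_iff₀ h]
        have : (c + β⁻¹) * β = c * β + 1 := by field_simp
        linarith
      linarith

theorem bad_block {α : ℝ} (hα : 1 < |α|) {R : ℕ} (hR : 2 ≤ |α| ^ R) (M : ℕ) (c : ℝ) (j : ℕ) :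
    ∃ c', c ≤ c' ∧ c' + |α|⁻¹ ^ (M + 2 * R * j) ≤ c + |α|⁻¹ ^ M ∧
      ∀ i < j, ∀ ξ, c' ≤ ξ → ξ ≤ c' + |α|⁻¹ ^ (M + 2 * R * j) →
        ∃ m : ℤ, |ξ * α ^ (M + 2 * R * i + R) - (m + 1 / 2)| ≤ |α|⁻¹ ^ R := by
  induction j with
  | zero => exact ⟨c, le_rfl, by simp, fun i hi => absurd hi (by omega)⟩
  | succ j ih =>
    obtain ⟨c1, a1, a2, a3⟩ := ih
    obtain ⟨c2, b1, b2, m, b3⟩ := bad_step hα hR (M + 2 * R * j) c1
    have e : M + 2 * R * (j + 1) = M + 2 * R * j + 2 * R := by ring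
    rw [e]
    refine ⟨c2, by linarith, by linarith, fun i hi ξ h1 h2 => ?_⟩
    rcases (Nat.lt_succ_iff.mp hi).eq_or_lt with h | h
    · subst h
      refine ⟨m, ?_⟩
      rw [← b3, ← sub_mul, abs_mul, abs_of_nonneg (by linarith), abs_pow]
      have h0 : 0 < |α| := by linarith
      calc (ξ - c2) * |α| ^ (M + 2 * R * i + R)
          ≤ |α|⁻¹ ^ (M + 2 * R * i + 2 * R) * |α| ^ (M + 2 * R * i + R) :=
            mul_le_mul_of_nonneg_right (by linarith) (by positivity)
        _ = |α|⁻¹ ^ R := by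
            rw [show M + 2 * R * i + 2 * R = R + (M + 2 * R * i + R) by ring, pow_add, mul_assoc,
              ← mul_pow, inv_mul_cancel₀ h0.ne', one_pow, mul_one]
    · exact a3 i h ξ (by linarith) (by linarith)

theorem wsum (T : ℕ) : ∑ i ∈ range T, (1 / 4 : ℝ) ^ i ≤ 2 := by
  have := geo1 (q := 1 / 4) (by norm_num) (by norm_num) 0 T
  rw [← Finset.range_eq_Ico] at this
  norm_num at this ⊢
  linarith

theorem core {α : ℝ} (hα : 1 < |α|) {R : ℕ} (hR : 2 ≤ |α| ^ R) (hR0 : 0 < R)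
    (φ : ℕ → ℝ → ℝ) (hL : ∀ i x y, |φ i x - φ i y| ≤ |x - y|) (hb : ∀ i x, |φ i x| ≤ 1)
    (hI : ∀ i u v, |∫ x in u..v, φ i x| ≤ 1) :
    ∃ F : (ℕ → Prop) → ℝ,
      (∀ β β' t, (∀ s < t, β s ↔ β' s) → |F β - F β'| ≤ |α|⁻¹ ^ t) ∧
      (∀ β s, β (Nat.sqrt s) →
        ∃ m : ℤ, |F β * α ^ (2 * R * s + R) - (m + 1 / 2)| ≤ |α|⁻¹ ^ R) ∧
      (∀ β, (∀ ε : ℝ, 0 < ε → ∀ᶠ t : ℕ in atTop, (((range t).filter β).card : ℝ) ≤ ε * t) →
        ∀ i, ∀ ε : ℝ, 0 < ε →
          ∀ᶠ N : ℕ in atTop, |∑ n ∈ range N, φ i (F β * α ^ n)| ≤ ε * N) := by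
  set q := |α|⁻¹ with hq
  have q0 : 0 < q := by positivity
  have q1 : q < 1 := inv_lt_one_of_one_lt₀ hα
  set C := (1 - q)⁻¹ with hC
  have C0 : 0 < C := by rw [hC]; exact inv_pos.mpr (by linarith)
  have hc : ∀ i, Continuous (φ i) := fun i =>
    (LipschitzWith.of_dist_le_mul (K := 1) (fun x y => by
      simpa [Real.dist_eq] using hL i x y)).continuous
  set P := 2 * R with hP
  have P1 : 1 ≤ P := by omega
  set N : ℕ → ℕ := fun t => P * t ^ 2 with hN
  have hN1 : ∀ t, N (t + 1) = N t + P * (2 * t + 1) := fun t => by simp only [hN]; ring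
  have hNlt : ∀ t, N t < N (t + 1) := fun t => by
    rw [hN1]; have : 0 < P * (2 * t + 1) := by positivity
    omega
  set D : ℕ → ℕ → ℝ → ℝ := fun i t c => ∑ n ∈ Ico (N t) (N (t + 1)), φ i (c * α ^ n) with hD
  have hDb : ∀ i t c, |D i t c| ≤ P * (2 * t + 1) := by
    intro i t c
    refine (Finset.abs_sum_le_sum_abs _ _).trans ?_
    refine (Finset.sum_le_sum (g := fun _ => (1 : ℝ)) fun n _ => hb i _).trans ?_
    simp [hN1]
  have step : ∀ (t : ℕ) (b : Prop) (c : ℝ) (S : ℕ → ℝ), ∃ c', c ≤ c' ∧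
      c' + q ^ N (t + 1) ≤ c + q ^ N t ∧
      (b → ∀ i < 2 * t + 1, ∀ ξ, c' ≤ ξ → ξ ≤ c' + q ^ N (t + 1) →
        ∃ m : ℤ, |ξ * α ^ (N t + 2 * R * i + R) - (m + 1 / 2)| ≤ q ^ R) ∧
      (¬ b → ∑ i ∈ range (t + 1), ((1 / 4) ^ i * S i) * D i t c' ≤
        C ^ 2 * ∑ i ∈ range (t + 1), |(1 / 4) ^ i * S i|) := by
    intro t b c S
    by_cases hb : b
    · obtain ⟨c', a1, a2, a3⟩ := bad_block hα hR (N t) c (2 * t + 1)
      rw [← hP, ← hN1] at a2 a3
      exact ⟨c', a1, a2, fun _ => a3, fun h => (h hb).elim⟩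
    · obtain ⟨c', a1, a2, a3⟩ := good_step hα φ hc hI (fun i => (1 / 4) ^ i * S i) (t + 1)
        (N t) (N (t + 1)) (hNlt t) c
      exact ⟨c', a1, a2, fun h => (hb h).elim, fun _ => a3⟩
  choose nx h1 h2 h3 h4 using step
  let st : (ℕ → Prop) → ℕ → ℝ × (ℕ → ℝ) := fun β t => Nat.rec (0, fun _ => 0)
    (fun t s => (nx t (β t) s.1 s.2,
      fun i => s.2 i + if β t then 0 else D i t (nx t (β t) s.1 s.2))) t
  have st1 : ∀ β t, (st β (t + 1)).1 = nx t (β t) (st β t).1 (st β t).2 := fun _ _ => rfl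
  have st2 : ∀ β t i, (st β (t + 1)).2 i =
      (st β t).2 i + if β t then 0 else D i t (st β (t + 1)).1 := fun _ _ _ => rfl
  have loc : ∀ β β' t, (∀ s < t, β s ↔ β' s) → st β t = st β' t := by
    intro β β' t h
    induction t with
    | zero => rfl
    | succ t ih =>
      have e := ih fun s hs => h s (by omega)
      have e2 : β t = β' t := propext (h t (by omega))
      apply Prod.ext
      · rw [st1, st1, e, e2]
      · funext i
        rw [st2, st2, st1, st1, e, e2]
  have mono1 : ∀ β, Monotone fun t => (st β t).1 := fun β =>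
    monotone_nat_of_le_succ fun t => by rw [st1]; exact h1 _ _ _ _
  have mono2 : ∀ β, Antitone fun t => (st β t).1 + q ^ N t := fun β =>
    antitone_nat_of_succ_le fun t => by rw [st1]; exact h2 _ _ _ _
  have bdd : ∀ β t t', (st β t').1 ≤ (st β t).1 + q ^ N t := by
    intro β t t'
    have a1 := mono1 β (le_max_right t t')
    have a2 := mono2 β (le_max_left t t')
    have a3 : 0 < q ^ N (max t t') := by positivity
    simp only at a1 a2
    linarith
  set F : (ℕ → Prop) → ℝ := fun β => ⨆ t, (st β t).1 with hF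
  have F1 : ∀ β t, (st β t).1 ≤ F β := fun β t =>
    le_ciSup (f := fun t => (st β t).1) ⟨_, by rintro _ ⟨t', rfl⟩; exact bdd β 0 t'⟩ t
  have F2 : ∀ β t, F β ≤ (st β t).1 + q ^ N t := fun β t => ciSup_le fun t' => bdd β t t'
  refine ⟨F, ?_, ?_, ?_⟩
  · intro β β' t h
    have a1 := F1 β t
    have a2 := F2 β t
    have a3 := F1 β' t
    have a4 := F2 β' t
    rw [loc β β' t h] at a1 a2
    have : q ^ N t ≤ q ^ t := pow_le_pow_of_le_one q0.le q1.le (by
      simp only [hN]; nlinarith [Nat.le_self_pow (n := 2) (by norm_num) t])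
    rw [abs_le]; constructor <;> linarith
  · intro β s hs
    set t := Nat.sqrt s with ht
    have a1 : t ^ 2 ≤ s := Nat.sqrt_le' s
    have a2 : s < (t + 1) ^ 2 := Nat.lt_succ_sqrt' s
    have := h3 t (β t) (st β t).1 (st β t).2 hs (s - t ^ 2) (by
      have : (t + 1) ^ 2 = t ^ 2 + (2 * t + 1) := by ring
      omega) (F β) (by rw [← st1]; exact F1 β (t + 1))
      (by rw [← st1]; exact F2 β (t + 1))
    have e : N t + 2 * R * (s - t ^ 2) + R = 2 * R * s + R := by
      simp only [hN, hP]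
      rw [← mul_add, Nat.add_sub_cancel' a1]
    rwa [e] at this
  · intro β hβ i ε hε
    have hSb : ∀ t j, |(st β t).2 j| ≤ P * t ^ 2 := by
      intro t j
      induction t with
      | zero => simp [st]
      | succ t ih =>
        rw [st2]
        have a1 := hDb j t (st β (t + 1)).1
        have a2 : (0 : ℝ) ≤ P * (2 * t + 1) := by positivity
        refine (abs_add_le _ _).trans ?_
        push_cast
        split_ifs
        · rw [abs_zero]; nlinarith
        · nlinarith
    set K : ℝ := P ^ 2 + 4 * C ^ 2 * P + 8 * P ^ 2 with hK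
    have K0 : 0 ≤ K := by positivity
    have hΦ : ∀ t, ∑ j ∈ range t, (1 / 4 : ℝ) ^ j * (st β t).2 j ^ 2 ≤ K * t ^ 3 := by
      intro t
      induction t with
      | zero => simp
      | succ t ih =>
        have t0 : (0 : ℝ) ≤ t := by positivity
        have P0 : (0 : ℝ) ≤ P := by positivity
        have b1 : ∑ j ∈ range (t + 1), (1 / 4 : ℝ) ^ j * (st β t).2 j ^ 2 ≤
            K * t ^ 3 + P ^ 2 * (t + 1) ^ 2 := by
          rw [Finset.sum_range_succ]
          have c1 : (st β t).2 t ^ 2 ≤ (P * t ^ 2) ^ 2 := by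
            rw [← sq_abs]; exact pow_le_pow_left₀ (abs_nonneg _) (hSb t t) 2
          have c2 : (1 / 4 : ℝ) ^ t * t ^ 2 ≤ 1 := by
            have d1 : (t : ℝ) ≤ 2 ^ t := by exact_mod_cast (Nat.lt_two_pow_self).le
            have d2 : (t : ℝ) ^ 2 ≤ (2 ^ t) ^ 2 := pow_le_pow_left₀ t0 d1 2
            have d3 : (1 / 4 : ℝ) ^ t * (2 ^ t) ^ 2 = 1 := by
              rw [← pow_mul, mul_comm t 2, pow_mul, ← mul_pow]; norm_num
            calc (1 / 4 : ℝ) ^ t * t ^ 2 ≤ (1 / 4 : ℝ) ^ t * (2 ^ t) ^ 2 :=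
                  mul_le_mul_of_nonneg_left d2 (by positivity)
              _ = 1 := d3
          have c3 : (1 / 4 : ℝ) ^ t * (st β t).2 t ^ 2 ≤ P ^ 2 * (t + 1) ^ 2 := by
            calc (1 / 4 : ℝ) ^ t * (st β t).2 t ^ 2 ≤ (1 / 4 : ℝ) ^ t * (P * t ^ 2) ^ 2 :=
                  mul_le_mul_of_nonneg_left c1 (by positivity)
              _ = ((1 / 4 : ℝ) ^ t * t ^ 2) * (P ^ 2 * t ^ 2) := by ring
              _ ≤ 1 * (P ^ 2 * t ^ 2) := mul_le_mul_of_nonneg_right c2 (by positivity)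
              _ ≤ P ^ 2 * (t + 1) ^ 2 := by
                  rw [one_mul]; gcongr; linarith
          linarith
        have b0 : K * t ^ 3 + K * (t + 1) ^ 2 ≤ K * (t + 1) ^ 3 := by
          rw [← mul_add]
          apply mul_le_mul_of_nonneg_left _ K0
          nlinarith [sq_nonneg (t : ℝ)]
        have b5 : (0 : ℝ) ≤ (4 * C ^ 2 * P + 8 * P ^ 2) * (t + 1) ^ 2 := by positivity
        push_cast
        by_cases hbt : β t
        · simp only [st2, if_pos hbt, add_zero]
          rw [hK] at b0 b1 ⊢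
          nlinarith
        · simp only [st2, if_neg hbt]
          have b2 := h4 t (β t) (st β t).1 (st β t).2 hbt
          rw [← st1] at b2
          have b3 : ∑ j ∈ range (t + 1), |(1 / 4 : ℝ) ^ j * (st β t).2 j| ≤
              2 * (P * (t + 1) ^ 2) := by
            refine le_trans (Finset.sum_le_sum
              (g := fun j => (1 / 4 : ℝ) ^ j * (P * (t + 1) ^ 2)) fun j _ => ?_) ?_
            · rw [abs_mul, abs_of_nonneg (by positivity)]
              apply mul_le_mul_of_nonneg_left _ (by positivity)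
              refine (hSb t j).trans ?_
              gcongr; linarith
            · rw [← Finset.sum_mul]
              exact mul_le_mul_of_nonneg_right (wsum _) (by positivity)
          have b4 : ∑ j ∈ range (t + 1), (1 / 4 : ℝ) ^ j * D j t (st β (t + 1)).1 ^ 2 ≤
              2 * (P * (2 * (t + 1))) ^ 2 := by
            refine le_trans (Finset.sum_le_sum
              (g := fun j => (1 / 4 : ℝ) ^ j * (P * (2 * (t + 1))) ^ 2) fun j _ => ?_) ?_
            · apply mul_le_mul_of_nonneg_left _ (by positivity)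
              rw [← sq_abs]
              apply pow_le_pow_left₀ (abs_nonneg _)
              refine (hDb j t _).trans ?_
              gcongr; linarith
            · rw [← Finset.sum_mul]
              exact mul_le_mul_of_nonneg_right (wsum _) (by positivity)
          have e : ∑ j ∈ range (t + 1),
              (1 / 4 : ℝ) ^ j * ((st β t).2 j + D j t (st β (t + 1)).1) ^ 2 =
              ∑ j ∈ range (t + 1), (1 / 4 : ℝ) ^ j * (st β t).2 j ^ 2 +
              2 * ∑ j ∈ range (t + 1), ((1 / 4) ^ j * (st β t).2 j) * D j t (st β (t + 1)).1 +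
              ∑ j ∈ range (t + 1), (1 / 4 : ℝ) ^ j * D j t (st β (t + 1)).1 ^ 2 := by
            rw [Finset.mul_sum, ← Finset.sum_add_distrib, ← Finset.sum_add_distrib]
            exact Finset.sum_congr rfl fun j _ => by ring
          rw [e]
          have b6 : C ^ 2 * ∑ j ∈ range (t + 1), |(1 / 4 : ℝ) ^ j * (st β t).2 j| ≤
              C ^ 2 * (2 * (P * (t + 1) ^ 2)) := mul_le_mul_of_nonneg_left b3 (by positivity)
          rw [hK] at b0 b1 ⊢
          nlinarith
    have hdiff : ∀ t, |∑ n ∈ range (N t), φ i (F β * α ^ n) - (st β t).2 i| ≤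
        C * t + ((range t).filter β).card * (P * (2 * t + 1)) := by
      intro t
      induction t with
      | zero => simp [hN, st]
      | succ t ih =>
        have t0 : (0 : ℝ) ≤ t := by positivity
        have P0 : (0 : ℝ) ≤ P := by positivity
        have e : ∑ n ∈ range (N (t + 1)), φ i (F β * α ^ n) =
            ∑ n ∈ range (N t), φ i (F β * α ^ n) + D i t (F β) :=
          (Finset.sum_range_add_sum_Ico _ (hNlt t).le).symm
        rw [e, st2, Finset.range_add_one, Finset.filter_insert]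
        have k0 : (0 : ℝ) ≤ ((range t).filter β).card := by positivity
        by_cases hbt : β t
        · rw [if_pos hbt, if_pos hbt, Finset.card_insert_of_notMem (by simp)]
          have a1 := hDb i t (F β)
          rw [abs_le] at ih a1 ⊢
          push_cast
          constructor <;> nlinarith [mul_nonneg k0 P0]
        · rw [if_neg hbt, if_neg hbt]
          have a1 : |D i t (F β) - D i t (st β (t + 1)).1| ≤ C := by
            simp only [hD]
            rw [← Finset.sum_sub_distrib]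
            refine (Finset.abs_sum_le_sum_abs _ _).trans
              (le_trans ?_ (geo2 q0 q1 (N t) (N (t + 1))))
            apply Finset.sum_le_sum
            intro n _
            refine (hL i _ _).trans ?_
            rw [← sub_mul, abs_mul, abs_pow, hq, inv_inv]
            apply mul_le_mul_of_nonneg_right _ (by positivity)
            have := F1 β (t + 1)
            have := F2 β (t + 1)
            rw [abs_le]; constructor <;> linarith
          rw [abs_le] at ih a1 ⊢
          push_cast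
          constructor <;> nlinarith [mul_nonneg k0 P0]
    set e := ε / 8 with he
    have e0 : 0 < e := by positivity
    have ev : ∀ᶠ t : ℕ in atTop, i < t ∧ 4 ^ i * K / e ^ 2 ≤ (t : ℝ) ∧ C / e ≤ (t : ℝ) ∧
        1 / e ≤ (t : ℝ) ∧ (((range t).filter β).card : ℝ) ≤ e * t := by
      refine (eventually_gt_atTop i).and ((tendsto_natCast_atTop_atTop.eventually_ge_atTop _).and
        ((tendsto_natCast_atTop_atTop.eventually_ge_atTop _).and
        ((tendsto_natCast_atTop_atTop.eventually_ge_atTop _).and (hβ e e0))))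
    obtain ⟨t0, ht0⟩ := eventually_atTop.mp ev
    filter_upwards [eventually_ge_atTop (N t0)] with n hn
    set t := Nat.sqrt (n / P) with ht
    have a1 : N t ≤ n := by
      simp only [hN]
      calc P * t ^ 2 ≤ P * (n / P) := Nat.mul_le_mul_left _ (Nat.sqrt_le' _)
        _ ≤ n := Nat.mul_div_le _ _
    have a2 : n < N (t + 1) := by
      have := Nat.lt_succ_sqrt' (n / P)
      simp only [hN]
      rw [mul_comm]
      exact (Nat.div_lt_iff_lt_mul (by omega)).mp this
    have a3 : t0 ≤ t := by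
      by_contra hcon
      have : N (t + 1) ≤ N t0 := (strictMono_nat_of_lt_succ hNlt).monotone (by omega)
      omega
    obtain ⟨c1, c2, c3, c4, c5⟩ := ht0 t a3
    have t1 : (1 : ℝ) ≤ t := by exact_mod_cast (show 1 ≤ t by omega)
    have P1' : (1 : ℝ) ≤ P := by exact_mod_cast P1
    have d1 : |(st β t).2 i| ≤ e * t ^ 2 := by
      apply abs_le_of_sq_le_sq _ (by positivity)
      have f1 : (1 / 4 : ℝ) ^ i * (st β t).2 i ^ 2 ≤ K * t ^ 3 :=
        le_trans (Finset.single_le_sum (f := fun j => (1 / 4 : ℝ) ^ j * (st β t).2 j ^ 2)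
          (fun j _ => by positivity) (Finset.mem_range.mpr c1)) (hΦ t)
      have f2 : (st β t).2 i ^ 2 ≤ 4 ^ i * K * t ^ 3 := by
        have := mul_le_mul_of_nonneg_left f1 (show (0 : ℝ) ≤ 4 ^ i by positivity)
        rwa [← mul_assoc, ← mul_pow, show (4 : ℝ) * (1 / 4) = 1 by norm_num, one_pow, one_mul,
          ← mul_assoc] at this
      rw [div_le_iff₀ (by positivity)] at c2
      calc (st β t).2 i ^ 2 ≤ 4 ^ i * K * t ^ 3 := f2
        _ ≤ (t * e ^ 2) * t ^ 3 := mul_le_mul_of_nonneg_right c2 (by positivity)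
        _ = (e * t ^ 2) ^ 2 := by ring
    have d2 : |∑ m ∈ Ico (N t) n, φ i (F β * α ^ m)| ≤ P * (2 * t + 1) := by
      refine (Finset.abs_sum_le_sum_abs _ _).trans ?_
      refine (Finset.sum_le_sum (g := fun _ => (1 : ℝ)) fun n _ => hb i _).trans ?_
      simp only [Finset.sum_const, Nat.card_Ico, nsmul_eq_mul, mul_one]
      have : n - N t ≤ P * (2 * t + 1) := by rw [hN1] at a2; omega
      exact_mod_cast this
    rw [← Finset.sum_range_add_sum_Ico _ a1]
    have d3 := hdiff t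
    have d4 : (P : ℝ) * t ^ 2 ≤ n := by exact_mod_cast a1
    rw [div_le_iff₀ e0] at c3 c4
    have d5 : C * t ≤ e * t ^ 2 := by nlinarith
    have d6 : (((range t).filter β).card : ℝ) * (P * (2 * t + 1)) ≤ e * t * (P * (3 * t)) :=
      mul_le_mul c5 (by gcongr; linarith) (by positivity) (by positivity)
    have d7 : (P : ℝ) * (2 * t + 1) ≤ 3 * e * (P * t ^ 2) := by
      have : (2 * t + 1 : ℝ) ≤ 3 * e * t ^ 2 := by nlinarith
      calc (P : ℝ) * (2 * t + 1) ≤ P * (3 * e * t ^ 2) := by gcongr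
        _ = _ := by ring
    have d8 : e * t ^ 2 ≤ e * (P * t ^ 2) := by
      apply mul_le_mul_of_nonneg_left _ e0.le
      nlinarith [sq_nonneg (t : ℝ)]
    have d9 : e * (P * t ^ 2) ≤ e * n := mul_le_mul_of_nonneg_left d4 e0.le
    have d10 : ε * n = 8 * (e * n) := by rw [he]; ring
    rw [abs_le] at d1 d2 d3 ⊢
    constructor <;> nlinarith

end Pool.Agent.H.MP_7a0c2d_lc
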