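import Mathlib

namespace Pool.Agent.H.MP_7a0c2d_lc

open Classical Filter Topology Finset

noncomputable def cnt (x : ℕ → ℝ) (a b : ℝ) (N : ℕ) : ℕ :=
  ((range N).filter (fun n => a ≤ Int.fract (x n) ∧ Int.fract (x n) < b)).card

noncomputable def cnt' (x : ℕ → ℝ) (a b : ℝ) (N : ℕ) : ℕ :=
  ((range N).filter (fun n => a ≤ Int.fract (x n) ∧ Int.fract (x n) ≤ b)).card

def UD (x : ℕ → ℝ) : Prop := ∀ a b : ℝ, 0 ≤ a → a ≤ b → b ≤ 1 →
  Tendsto (fun N : ℕ => (cnt x a b N : ℝ) / (N : ℝ)) atTop (𝓝 (b - a))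

def LBQ (x : ℕ → ℝ) : Prop := ∀ (a b : ℚ) (k : ℕ), (0 : ℝ) ≤ a → (b : ℝ) < 1 →
  ∃ N0 : ℕ, ∀ N ≥ N0, ((b : ℝ) - a - 1 / (k + 1)) * N ≤ cnt' x a b N

theorem UD.lbq {x : ℕ → ℝ} (h : UD x) : LBQ x := by
  intro a b k ha hb
  have k0 : (0 : ℝ) < 1 / (k + 1) := by positivity
  by_cases hab : (a : ℝ) ≤ b
  · have := (h a b ha hab hb.le).eventually
      (lt_mem_nhds (show (b : ℝ) - a - 1 / (k + 1) < b - a by linarith))
    obtain ⟨N0, hN0⟩ := eventually_atTop.mp (this.and (eventually_gt_atTop 0))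
    refine ⟨N0, fun N hN => ?_⟩
    obtain ⟨a1, a2⟩ := hN0 N hN
    have N0' : (0 : ℝ) < N := by exact_mod_cast a2
    rw [lt_div_iff₀ N0'] at a1
    refine a1.le.trans ?_
    unfold cnt cnt'
    rw [Nat.cast_le]
    apply Finset.card_le_card
    intro n hn
    rw [Finset.mem_filter] at hn ⊢
    exact ⟨hn.1, hn.2.1, hn.2.2.le⟩
  · refine ⟨0, fun N _ => le_trans ?_ (Nat.cast_nonneg _)⟩
    apply mul_nonpos_of_nonpos_of_nonneg _ (Nat.cast_nonneg _)
    push Not at hab
    linarith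

theorem LBQ.lb {x : ℕ → ℝ} (h : LBQ x) {a b : ℝ} (ha : 0 ≤ a) (hb : b ≤ 1) {ε : ℝ}
    (hε : 0 < ε) : ∀ᶠ N : ℕ in atTop, (b - a - ε) * N ≤ cnt x a b N := by
  obtain ⟨a', a1, a2⟩ := exists_rat_btwn (show a < a + ε / 3 by linarith)
  obtain ⟨b', b1, b2⟩ := exists_rat_btwn (show b - ε / 3 < b by linarith)
  obtain ⟨k, hk⟩ := exists_nat_one_div_lt (show 0 < ε / 3 by linarith)
  obtain ⟨N0, hN0⟩ := h a' b' k (by linarith) (by linarith)
  filter_upwards [eventually_ge_atTop N0] with N hN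
  have c1 := hN0 N hN
  have c2 : (cnt' x a' b' N : ℝ) ≤ cnt x a b N := by
    unfold cnt cnt'
    rw [Nat.cast_le]
    apply Finset.card_le_card
    intro n hn
    rw [Finset.mem_filter] at hn ⊢
    exact ⟨hn.1, by linarith [hn.2.1], by linarith [hn.2.2]⟩
  refine le_trans (mul_le_mul_of_nonneg_right (by linarith) (Nat.cast_nonneg _)) (c1.trans c2)

theorem cnt_add (x : ℕ → ℝ) {a b : ℝ} (hab : a ≤ b) (N : ℕ) :
    cnt x 0 a N + cnt x a b N + cnt x b 1 N ≤ N := by
  induction N with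
  | zero => simp [cnt]
  | succ N ih =>
    unfold cnt at ih ⊢
    simp only [Finset.range_add_one, Finset.filter_insert]
    have hn : ∀ (p : ℕ → Prop) [DecidablePred p], N ∉ (range N).filter p := fun p _ => by simp
    split_ifs with h1 h2 h3 h4 h5 h6 h7 <;>
      first
      | (exfalso; linarith [h1.2, h2.1])
      | (exfalso; linarith [h1.2, h4.1])
      | (exfalso; linarith [h5.2, h6.1])
      | (simp only [Finset.card_insert_of_notMem (hn _)]; omega)
      | omega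

theorem LBQ.ud {x : ℕ → ℝ} (h : LBQ x) : UD x := by
  intro a b ha hab hb
  rw [Metric.tendsto_nhds]
  intro ε hε
  have e3 : 0 < ε / 3 := by linarith
  filter_upwards [h.lb ha hb e3, h.lb le_rfl (hab.trans hb) e3, h.lb (ha.trans hab) le_rfl e3,
    eventually_gt_atTop 0] with N h1 h2 h3 h4
  have N0 : (0 : ℝ) < N := by exact_mod_cast h4
  have h5 : (cnt x 0 a N : ℝ) + cnt x a b N + cnt x b 1 N ≤ N := by
    exact_mod_cast cnt_add x hab N
  rw [Real.dist_eq, abs_lt, lt_sub_iff_add_lt, sub_lt_iff_lt_add, lt_div_iff₀ N0, div_lt_iff₀ N0]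
  constructor <;> nlinarith [mul_pos e3 N0]

theorem isClosed_fract {a b : ℝ} (ha : 0 ≤ a) (hb : b < 1) :
    IsClosed {x : ℝ | a ≤ Int.fract x ∧ Int.fract x ≤ b} := by
  have : {x : ℝ | a ≤ Int.fract x ∧ Int.fract x ≤ b} =
      ⋂ m : ℤ, (Set.Iic (m + b) ∪ Set.Ici (m + 1 + a)) := by
    ext x
    simp only [Set.mem_ofPred_eq, Set.mem_iInter, Set.mem_union, Set.mem_Iic, Set.mem_Ici]
    have e := Int.floor_add_fract x
    have f0 := Int.fract_nonneg x
    have f1 := Int.fract_lt_one x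
    constructor
    · rintro ⟨h1, h2⟩ m
      by_cases hm : ⌊x⌋ ≤ m
      · left
        have : (⌊x⌋ : ℝ) ≤ m := by exact_mod_cast hm
        linarith
      · right
        have : (m : ℝ) + 1 ≤ ⌊x⌋ := by exact_mod_cast (show m + 1 ≤ ⌊x⌋ by omega)
        linarith
    · intro h
      constructor
      · rcases h (⌊x⌋ - 1) with h | h <;> push_cast at h <;> linarith
      · rcases h ⌊x⌋ with h | h <;> linarith
  rw [this]
  exact isClosed_iInter fun m => isClosed_Iic.union isClosed_Ici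

theorem isClosed_cnt (α : ℝ) {a b : ℝ} (ha : 0 ≤ a) (hb : b < 1) (r : ℝ) (N : ℕ) :
    IsClosed {ξ : ℝ | r ≤ cnt' (fun n => ξ * α ^ n) a b N} := by
  have : {ξ : ℝ | r ≤ cnt' (fun n => ξ * α ^ n) a b N} =
      ⋃ s ∈ (range N).powerset.filter (fun s => r ≤ s.card),
        ⋂ n ∈ s, (fun ξ => ξ * α ^ n) ⁻¹' {x : ℝ | a ≤ Int.fract x ∧ Int.fract x ≤ b} := by
    ext ξ
    simp only [Set.mem_ofPred_eq, Set.mem_iUnion, Set.mem_iInter, Finset.mem_filter,
      Finset.mem_powerset, Set.mem_preimage, exists_prop]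
    constructor
    · intro h
      exact ⟨_, ⟨Finset.filter_subset _ _, h⟩, fun n hn => (Finset.mem_filter.mp hn).2⟩
    · rintro ⟨s, ⟨h1, h2⟩, h3⟩
      refine h2.trans ?_
      exact_mod_cast Finset.card_le_card fun n hn => Finset.mem_filter.mpr ⟨h1 hn, h3 n hn⟩
  rw [this]
  apply isClosed_biUnion_finset
  intro s _
  exact isClosed_iInter fun n => isClosed_iInter fun _ =>
    (isClosed_fract ha hb).preimage (continuous_id.mul continuous_const)

theorem pi03 (α : ℝ) : ∃ F : ℕ → ℕ → Set ℝ, (∀ i j, IsClosed (F i j)) ∧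
    {ξ : ℝ | UD (fun n => ξ * α ^ n)} = ⋂ i, ⋃ j, F i j := by
  obtain ⟨e, he⟩ := exists_surjective_nat (ℚ × ℚ × ℕ)
  refine ⟨fun i j => {ξ | (0 : ℝ) ≤ (e i).1 → ((e i).2.1 : ℝ) < 1 → ∀ N ≥ j,
    (((e i).2.1 : ℝ) - (e i).1 - 1 / ((e i).2.2 + 1)) * N ≤
      cnt' (fun n => ξ * α ^ n) (e i).1 (e i).2.1 N}, fun i j => ?_, ?_⟩
  · simp only [Set.ofPred_forall]
    exact isClosed_iInter fun ha => isClosed_iInter fun hb => isClosed_iInter fun N =>
      isClosed_iInter fun _ => isClosed_cnt α ha hb _ N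
  · ext ξ
    simp only [Set.mem_ofPred_eq, Set.mem_iInter, Set.mem_iUnion]
    constructor
    · intro h i
      by_cases hc : (0 : ℝ) ≤ (e i).1 ∧ ((e i).2.1 : ℝ) < 1
      · obtain ⟨N0, h0⟩ := h.lbq (e i).1 (e i).2.1 (e i).2.2 hc.1 hc.2
        exact ⟨N0, fun _ _ => h0⟩
      · exact ⟨0, fun h1 h2 => (hc ⟨h1, h2⟩).elim⟩
    · intro h
      apply LBQ.ud
      intro a b k ha hb
      obtain ⟨i, hi⟩ := he (a, b, k)
      obtain ⟨j, hj⟩ := h i
      rw [hi] at hj
      exact ⟨j, hj ha hb⟩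

noncomputable def psi (a b ε x : ℝ) : ℝ :=
  min ε (Metric.infDist x {z : ℝ | ¬ (a < Int.fract z ∧ Int.fract z < b)})

theorem psi_lip (a b ε x y : ℝ) : |psi a b ε x - psi a b ε y| ≤ |x - y| := by
  unfold psi
  refine (abs_min_sub_min_le_max _ _ _ _).trans ?_
  rw [sub_self, abs_zero, max_le_iff]
  refine ⟨abs_nonneg _, ?_⟩
  have := (Metric.lipschitz_infDist_pt
    {z : ℝ | ¬ (a < Int.fract z ∧ Int.fract z < b)}).dist_le_mul x y
  simpa [Real.dist_eq] using this

theorem psi_cont (a b ε : ℝ) : Continuous (psi a b ε) :=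
  (LipschitzWith.of_dist_le_mul (K := 1) (fun x y => by
    simpa [Real.dist_eq] using psi_lip a b ε x y)).continuous

theorem psi_nonneg (a b : ℝ) {ε : ℝ} (hε : 0 ≤ ε) (x : ℝ) : 0 ≤ psi a b ε x :=
  le_min hε Metric.infDist_nonneg

theorem psi_le (a b ε x : ℝ) : psi a b ε x ≤ ε := min_le_left _ _

theorem psi_periodic (a b ε : ℝ) : Function.Periodic (psi a b ε) 1 := by
  intro x
  unfold psi
  congr 1
  have hi : Isometry (fun x : ℝ => x + 1) := isometry_add_right 1
  have := Metric.infDist_image hi (x := x)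
    (t := {z : ℝ | ¬ (a < Int.fract z ∧ Int.fract z < b)})
  rw [← this]
  congr 1
  ext z
  simp only [Set.mem_ofPred_eq, Set.mem_image]
  constructor
  · intro h
    exact ⟨z - 1, by rwa [Int.fract_sub_one], by ring⟩
  · rintro ⟨w, h, rfl⟩
    rwa [Int.fract_add_one]

theorem psi_int {a b ε : ℝ} (ha : 0 ≤ a) (hb : b < 1) (hε : 0 < ε) :
    ε * (b - a - 2 * ε) ≤ ∫ x in (0 : ℝ)..1, psi a b ε x := by
  by_cases h : a + ε ≤ b - ε
  · have h1 : ∫ x in (a + ε)..(b - ε), psi a b ε x ≤ ∫ x in (0 : ℝ)..1, psi a b ε x :=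
      intervalIntegral.integral_mono_interval (by linarith) h (by linarith)
        (Eventually.of_forall fun x => psi_nonneg a b hε.le x)
        ((psi_cont a b ε).intervalIntegrable _ _)
    refine le_trans ?_ h1
    have h2 : ∫ x in (a + ε)..(b - ε), ε ≤ ∫ x in (a + ε)..(b - ε), psi a b ε x := by
      apply intervalIntegral.integral_mono_on h (continuous_const.intervalIntegrable _ _)
        ((psi_cont a b ε).intervalIntegrable _ _)
      intro x hx
      refine le_min le_rfl ?_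
      rw [Metric.le_infDist ⟨0, by simp; intro h; linarith⟩]
      intro z hz
      by_contra hc
      rw [Real.dist_eq, not_le, abs_lt] at hc
      apply hz
      have : Int.fract z = z := Int.fract_eq_self.mpr ⟨by linarith [hx.1], by linarith [hx.2]⟩
      rw [this]
      constructor <;> linarith [hx.1, hx.2]
    simp only [intervalIntegral.integral_const, smul_eq_mul] at h2
    linarith
  · refine le_trans ?_ (intervalIntegral.integral_nonneg zero_le_one
      fun x _ => psi_nonneg a b hε.le x)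
    apply mul_nonpos_of_nonneg_of_nonpos hε.le
    push Not at h
    linarith

theorem int_periodic {φ : ℝ → ℝ} (hc : Continuous φ) (hp : Function.Periodic φ 1)
    (h0 : ∫ x in (0 : ℝ)..1, φ x = 0) (hb : ∀ x, |φ x| ≤ 1) (u v : ℝ) :
    |∫ x in u..v, φ x| ≤ 1 := by
  have h1 := hp.intervalIntegral_add_zsmul_eq ⌊v - u⌋ u (fun _ _ => hc.intervalIntegrable _ _)
  rw [hp.intervalIntegral_add_eq u 0, zero_add, h0, smul_zero] at h1
  rw [← intervalIntegral.integral_add_adjacent_intervals (b := u + ⌊v - u⌋ • (1 : ℝ))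
    (hc.intervalIntegrable _ _) (hc.intervalIntegrable _ _), h1, zero_add]
  have h2 := intervalIntegral.norm_integral_le_of_norm_le_const (a := u + ⌊v - u⌋ • (1 : ℝ))
    (b := v) (f := φ) (C := 1) (fun x _ => hb x)
  refine h2.trans ?_
  have a1 := Int.floor_le (v - u)
  have a2 := Int.lt_floor_add_one (v - u)
  rw [one_mul, zsmul_eq_mul, mul_one, abs_le]
  constructor <;> linarith

theorem tests : ∃ φ : ℕ → ℝ → ℝ, (∀ i x y, |φ i x - φ i y| ≤ |x - y|) ∧ (∀ i x, |φ i x| ≤ 1) ∧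
    (∀ i u v, |∫ x in u..v, φ i x| ≤ 1) ∧
    ∀ x : ℕ → ℝ, (∀ i, ∀ ε : ℝ, 0 < ε →
      ∀ᶠ N : ℕ in atTop, |∑ n ∈ range N, φ i (x n)| ≤ ε * N) → UD x := by
  obtain ⟨e, he⟩ := exists_surjective_nat (ℚ × ℚ × ℕ)
  set ε : ℕ → ℝ := fun k => 1 / (k + 1) / 3 with hε
  have ε0 : ∀ k, 0 < ε k := fun k => by simp only [hε]; positivity
  have ε1 : ∀ k, ε k ≤ 1 := fun k => by
    simp only [hε]
    have : (1 : ℝ) / (k + 1) ≤ 1 := by
      rw [div_le_one (by positivity)]; linarith [Nat.cast_nonneg (α := ℝ) k]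
    linarith
  set φ : ℚ × ℚ × ℕ → ℝ → ℝ := fun p x => psi p.1 p.2.1 (ε p.2.2) x -
    ∫ y in (0 : ℝ)..1, psi p.1 p.2.1 (ε p.2.2) y with hφ
  have hb : ∀ p x, |φ p x| ≤ 1 := by
    intro p x
    have a1 := psi_nonneg p.1 p.2.1 (ε0 p.2.2).le x
    have a2 := psi_le p.1 p.2.1 (ε p.2.2) x
    have a3 : 0 ≤ ∫ y in (0 : ℝ)..1, psi p.1 p.2.1 (ε p.2.2) y :=
      intervalIntegral.integral_nonneg zero_le_one fun x _ => psi_nonneg _ _ (ε0 _).le x
    have a4 : ∫ y in (0 : ℝ)..1, psi p.1 p.2.1 (ε p.2.2) y ≤ ∫ y in (0 : ℝ)..1, (1 : ℝ) :=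
      intervalIntegral.integral_mono_on zero_le_one ((psi_cont _ _ _).intervalIntegrable _ _)
        (continuous_const.intervalIntegrable _ _) fun x _ => (psi_le _ _ _ _).trans (ε1 _)
    simp only [intervalIntegral.integral_const, smul_eq_mul, sub_zero, mul_one] at a4
    have a5 := ε1 p.2.2
    simp only [hφ]
    rw [abs_le]; constructor <;> linarith
  refine ⟨fun i => φ (e i), fun i x y => ?_, fun i x => hb _ x, fun i u v => ?_, fun x hx => ?_⟩
  · simp only [hφ, sub_sub_sub_cancel_right]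
    exact psi_lip _ _ _ _ _
  · apply int_periodic (φ := φ (e i)) ((psi_cont _ _ _).sub continuous_const) _ _ (hb _)
    · intro x
      simp only [hφ, psi_periodic _ _ _ x]
    · simp only [hφ]
      rw [intervalIntegral.integral_sub ((psi_cont _ _ _).intervalIntegrable _ _)
        (continuous_const.intervalIntegrable _ _)]
      simp
  · apply LBQ.ud
    intro a b k ha hb'
    obtain ⟨i, hi⟩ := he (a, b, k)
    obtain ⟨N0, h0⟩ := eventually_atTop.mp (hx i (ε k ^ 2) (by have := ε0 k; positivity))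
    refine ⟨N0, fun N hN => ?_⟩
    have a1 := (abs_le.mp (h0 N hN)).1
    simp only [hi, hφ, Finset.sum_sub_distrib, Finset.sum_const, Finset.card_range,
      nsmul_eq_mul] at a1
    have a2 := psi_int ha hb' (ε0 k)
    have a3 : ∑ n ∈ range N, psi a b (ε k) (x n) ≤ ε k * cnt' x a b N := by
      unfold cnt'
      rw [Finset.card_filter, Nat.cast_sum, Finset.mul_sum]
      apply Finset.sum_le_sum
      intro n _
      split_ifs with h
      · simpa using psi_le _ _ _ _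
      · refine (min_le_right _ _).trans ?_
        rw [Metric.infDist_zero_of_mem]
        · simp
        · exact fun h' => h ⟨h'.1.le, h'.2.le⟩
    have N0' : (0 : ℝ) ≤ N := Nat.cast_nonneg _
    have a4 := mul_le_mul_of_nonneg_left a2 N0'
    have a5 : (1 : ℝ) / (k + 1) = 3 * ε k := by simp only [hε]; ring
    rw [a5]
    apply le_of_mul_le_mul_left _ (ε0 k)
    nlinarith

end Pool.Agent.H.MP_7a0c2d_lc
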