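import Pool.Agent.H.MP_7a0c2d_lc.Core
import Pool.Agent.H.MP_7a0c2d_lc.UD

namespace Pool.Agent.H.MP_7a0c2d_lc

open Classical Filter Topology Finset

noncomputable def jj (G : ℕ → ℕ → Set (ℕ → ℕ)) (i : ℕ) (x : ℕ → ℕ) (n : ℕ) : ℕ :=
  sInf {j | j = n ∨ ∃ x' ∈ G i j, ∀ m < n, x' m = x m}

noncomputable def yy (G : ℕ → ℕ → Set (ℕ → ℕ)) (x : ℕ → ℕ) (n : ℕ) : ℕ :=
  sInf {i | i = n ∨ jj G i x (n + 1) ≠ jj G i x n}

theorem jj_loc (G : ℕ → ℕ → Set (ℕ → ℕ)) (i : ℕ) {x x' : ℕ → ℕ} {n : ℕ}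
    (h : ∀ m < n, x m = x' m) : jj G i x n = jj G i x' n := by
  unfold jj
  congr 1
  ext j
  simp only [Set.mem_ofPred_eq]
  refine or_congr Iff.rfl (exists_congr fun w => and_congr Iff.rfl ?_)
  exact forall_congr' fun m => forall_congr' fun hm => by rw [h m hm]

theorem yy_loc (G : ℕ → ℕ → Set (ℕ → ℕ)) {x x' : ℕ → ℕ} {n : ℕ}
    (h : ∀ m < n + 1, x m = x' m) : yy G x n = yy G x' n := by
  unfold yy
  congr 1
  ext i
  simp only [Set.mem_ofPred_eq]
  rw [jj_loc G i h, jj_loc G i (n := n) (fun m hm => h m (by omega))]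

theorem jj_mem (G : ℕ → ℕ → Set (ℕ → ℕ)) (i : ℕ) (x : ℕ → ℕ) (n : ℕ) :
    jj G i x n = n ∨ ∃ x' ∈ G i (jj G i x n), ∀ m < n, x' m = x m :=
  Nat.sInf_mem (s := {j | j = n ∨ ∃ x' ∈ G i j, ∀ m < n, x' m = x m}) ⟨n, Or.inl rfl⟩

theorem jj_mono (G : ℕ → ℕ → Set (ℕ → ℕ)) (i : ℕ) (x : ℕ → ℕ) : Monotone (jj G i x) := by
  apply monotone_nat_of_le_succ
  intro n
  rcases jj_mem G i x (n + 1) with h | ⟨x', h1, h2⟩
  · rw [h]
    exact (Nat.sInf_le (Or.inl rfl) : jj G i x n ≤ n).trans (Nat.le_succ n)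
  · exact Nat.sInf_le (Or.inr ⟨x', h1, fun m hm => h2 m (by omega)⟩)

theorem yy_iff {G : ℕ → ℕ → Set (ℕ → ℕ)} (hG : ∀ i j, IsClosed (G i j)) (x : ℕ → ℕ) :
    x ∈ ⋂ i, ⋃ j, G i j ↔ ∀ k, ∀ᶠ n in atTop, k ≤ yy G x n := by
  simp only [Set.mem_iInter, Set.mem_iUnion]
  constructor
  · intro h k
    have h1 : ∀ i, ∀ᶠ n in atTop, jj G i x (n + 1) = jj G i x n := by
      intro i
      obtain ⟨j, hj⟩ := h i
      have hb : BddAbove (Set.range (jj G i x)) := ⟨j, by
        rintro _ ⟨n, rfl⟩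
        exact Nat.sInf_le (Or.inr ⟨x, hj, fun _ _ => rfl⟩)⟩
      obtain ⟨n0, hn0⟩ := Nat.sSup_mem (Set.range_nonempty _) hb
      filter_upwards [eventually_ge_atTop n0] with n hn
      have a1 := jj_mono G i x hn
      have a2 := jj_mono G i x (Nat.le_succ n)
      have a3 : jj G i x (n + 1) ≤ sSup (Set.range (jj G i x)) := le_csSup hb ⟨_, rfl⟩
      simp only [Nat.succ_eq_add_one] at a2
      omega
    have h2 : ∀ᶠ n in atTop, ∀ i ∈ range k, jj G i x (n + 1) = jj G i x n :=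
      (Finset.eventually_all _).mpr fun i _ => h1 i
    filter_upwards [h2, eventually_ge_atTop k] with n a1 a2
    have a3 : yy G x n = n ∨ jj G (yy G x n) x (n + 1) ≠ jj G (yy G x n) x n :=
      Nat.sInf_mem (s := {i | i = n ∨ jj G i x (n + 1) ≠ jj G i x n}) ⟨n, Or.inl rfl⟩
    by_contra hc
    rcases a3 with a3 | a3
    · omega
    · exact a3 (a1 _ (Finset.mem_range.mpr (by omega)))
  · intro h i
    obtain ⟨n0, hn0⟩ := eventually_atTop.mp (h (i + 1))
    have h1 : ∀ n, n0 ≤ n → jj G i x n = jj G i x n0 := by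
      intro n hn
      induction hn with
      | refl => rfl
      | @step n hn ih =>
        rw [← ih]
        by_contra hc
        have a1 : yy G x n ≤ i := Nat.sInf_le (Or.inr hc)
        have a2 := hn0 n hn
        omega
    refine ⟨jj G i x n0, ?_⟩
    have h2 : ∀ n, ∃ x' ∈ G i (jj G i x n0), ∀ m < n, x' m = x m := by
      intro n
      rcases jj_mem G i x (n + n0 + jj G i x n0 + 1) with a | ⟨x', a1, a2⟩
      · rw [h1 _ (by omega)] at a
        omega
      · rw [h1 _ (by omega)] at a1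
        exact ⟨x', a1, fun m hm => a2 m (by omega)⟩
    choose w hw1 hw2 using h2
    apply (hG i _).mem_of_tendsto (f := w) (b := atTop) _ (Eventually.of_forall hw1)
    rw [tendsto_pi_nhds]
    intro m
    apply tendsto_const_nhds.congr'
    filter_upwards [eventually_gt_atTop m] with n hn
    exact (hw2 n m hn).symm

def bad (y : ℕ → ℕ) (t : ℕ) : Prop :=
  (t - 2 ^ Nat.log 2 t) * (y (Nat.log 2 t) + 1) < 2 ^ Nat.log 2 t

theorem bad_density {y : ℕ → ℕ} (h : ∀ k, ∀ᶠ n in atTop, k ≤ y n) (ε : ℝ) (hε : 0 < ε) :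
    ∀ᶠ t : ℕ in atTop, (((range t).filter (bad y)).card : ℝ) ≤ ε * t := by
  obtain ⟨k, hk⟩ := exists_nat_gt (5 / ε)
  have k0 : 0 < k := by
    have : (0 : ℝ) < k := lt_trans (by positivity) hk
    exact_mod_cast this
  obtain ⟨n0, hn0⟩ := eventually_atTop.mp ((h k).and (eventually_ge_atTop k))
  have key : ∀ n, n0 ≤ n →
      k * ((range (2 ^ n)).filter (bad y)).card ≤ k * 2 ^ n0 + 2 * 2 ^ n := by
    intro n hn
    induction hn with
    | refl =>
      have : ((range (2 ^ n0)).filter (bad y)).card ≤ 2 ^ n0 :=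
        (Finset.card_filter_le _ _).trans (by simp)
      have := Nat.mul_le_mul_left k this
      omega
    | @step n hn ih =>
      obtain ⟨a1, a2⟩ := hn0 n hn
      have sub : (range (2 ^ (n + 1))).filter (bad y) ⊆
          (range (2 ^ n)).filter (bad y) ∪ Ico (2 ^ n) (2 ^ n + (2 ^ n / k + 1)) := by
        intro t ht
        rw [Finset.mem_filter, Finset.mem_range] at ht
        rw [Finset.mem_union, Finset.mem_filter, Finset.mem_range, Finset.mem_Ico]
        by_cases hc : t < 2 ^ n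
        · exact Or.inl ⟨hc, ht.2⟩
        · right
          have e : Nat.log 2 t = n := Nat.log_eq_of_pow_le_of_lt_pow (by omega) ht.1
          have b1 := ht.2
          unfold bad at b1
          rw [e] at b1
          have b2 : (t - 2 ^ n) * k ≤ (t - 2 ^ n) * (y n + 1) := Nat.mul_le_mul_left _ (by omega)
          have b3 : t - 2 ^ n ≤ 2 ^ n / k := (Nat.le_div_iff_mul_le k0).mpr (by omega)
          omega
      have c1 := (Finset.card_le_card sub).trans (Finset.card_union_le _ _)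
      rw [Nat.card_Ico, Nat.add_sub_cancel_left] at c1
      have c2 := Nat.mul_le_mul_left k c1
      have c3 : k * (2 ^ n / k) ≤ 2 ^ n := Nat.mul_div_le _ _
      have c4 : n < 2 ^ n := Nat.lt_two_pow_self
      rw [mul_add, mul_add, mul_one] at c2
      simp only [Nat.succ_eq_add_one, pow_succ] at c2 ⊢
      omega
  filter_upwards [eventually_ge_atTop (k * 2 ^ n0)] with t ht
  have t1 : 2 ^ n0 ≤ t := le_trans (Nat.le_mul_of_pos_left _ k0) ht
  have t0 : t ≠ 0 := by have := Nat.two_pow_pos n0; omega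
  have a1 : t < 2 ^ (Nat.log 2 t + 1) := Nat.lt_pow_succ_log_self (by norm_num) t
  have a2 : 2 ^ Nat.log 2 t ≤ t := Nat.pow_log_le_self 2 t0
  have a3 : n0 ≤ Nat.log 2 t := Nat.le_log_of_pow_le (by norm_num) t1
  have a4 := key (Nat.log 2 t + 1) (by omega)
  have a5 : ((range t).filter (bad y)).card ≤
      ((range (2 ^ (Nat.log 2 t + 1))).filter (bad y)).card :=
    Finset.card_le_card (Finset.filter_subset_filter _ (Finset.range_subset_range.mpr a1.le))
  have a6 := Nat.mul_le_mul_left k a5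
  rw [pow_succ] at a4 a6
  have a7 : k * ((range t).filter (bad y)).card ≤ 5 * t := by omega
  have a8 : (k : ℝ) * ((range t).filter (bad y)).card ≤ 5 * t := by exact_mod_cast a7
  have k0' : (0 : ℝ) < k := by exact_mod_cast k0
  rw [div_lt_iff₀ hε] at hk
  apply le_of_mul_le_mul_left _ k0'
  have : (0 : ℝ) ≤ t := Nat.cast_nonneg _
  nlinarith

theorem not_ud {y : ℕ → ℕ} {k : ℕ} (h : ∃ᶠ n in atTop, y n < k) {x : ℕ → ℝ} {R : ℕ}
    (hR0 : 0 < R) {δ : ℝ} (hδ0 : 0 < δ) (hδ : 12 * R * δ ≤ 1)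
    (hx : ∀ s, bad y (Nat.sqrt s) → ∃ m : ℤ, |x (2 * R * s + R) - (m + 1 / 2)| ≤ δ) :
    ¬ UD x := by
  intro hU
  have R1 : (1 : ℝ) ≤ R := by exact_mod_cast hR0
  have δ1 : δ ≤ 1 / 12 := by nlinarith
  obtain ⟨n', hn'⟩ := h.exists
  have k0 : 0 < k := by omega
  have k0' : (0 : ℝ) < k := by exact_mod_cast k0
  set η : ℝ := 1 / (40 * R * k) with hη
  have η0 : 0 < η := by positivity
  have hT := hU (1 / 2 - δ) (1 / 2 + 2 * δ) (by linarith) (by linarith) (by linarith)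
  rw [Metric.tendsto_nhds] at hT
  obtain ⟨N0, hN0⟩ := eventually_atTop.mp ((hT η η0).and (eventually_gt_atTop 0))
  obtain ⟨n, h1, h2, h3⟩ := (h.and_eventually
    ((eventually_ge_atTop N0).and (eventually_ge_atTop k))).exists
  set a := 2 ^ n with ha
  have an : n < a := Nat.lt_two_pow_self
  set d := a / k with hd
  have d1 : k * d ≤ a := Nat.mul_div_le _ _
  have d2 : a < k * (d + 1) := Nat.lt_mul_div_succ a k0
  have d0 : 1 ≤ d := (Nat.le_div_iff_mul_le k0).mpr (by omega)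
  have d3 : d ≤ a := Nat.div_le_self _ _
  have hit : ∀ s ∈ Ico (a ^ 2) ((a + d) ^ 2), 1 / 2 - δ ≤ Int.fract (x (2 * R * s + R)) ∧
      Int.fract (x (2 * R * s + R)) < 1 / 2 + 2 * δ := by
    intro s hs
    rw [Finset.mem_Ico] at hs
    have b1 : a ≤ Nat.sqrt s := Nat.le_sqrt'.mpr hs.1
    have b2 : Nat.sqrt s < a + d := Nat.sqrt_lt'.mpr hs.2
    have e : Nat.log 2 (Nat.sqrt s) = n :=
      Nat.log_eq_of_pow_le_of_lt_pow b1 (by rw [pow_succ]; omega)
    obtain ⟨m, hm⟩ := hx s (by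
      unfold bad
      rw [e, ← ha]
      have c1 : (Nat.sqrt s - a) * (y n + 1) ≤ (d - 1) * k := Nat.mul_le_mul (by omega) (by omega)
      have c2 : (d - 1) * k + k = k * d := by
        obtain ⟨d', hd'⟩ := Nat.exists_eq_add_of_le' d0
        rw [hd', Nat.add_sub_cancel]; ring
      omega)
    rw [abs_le] at hm
    have : Int.fract (x (2 * R * s + R)) = x (2 * R * s + R) - m :=
      Int.fract_eq_iff.mpr ⟨by linarith [hm.1], by linarith [hm.2], m, by ring⟩
    rw [this]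
    constructor <;> linarith [hm.1, hm.2]
  have hsq : a ^ 2 ≤ (a + d) ^ 2 := Nat.pow_le_pow_left (by omega) 2
  have hc : cnt x (1 / 2 - δ) (1 / 2 + 2 * δ) (2 * R * a ^ 2) + ((a + d) ^ 2 - a ^ 2) ≤
      cnt x (1 / 2 - δ) (1 / 2 + 2 * δ) (2 * R * (a + d) ^ 2) := by
    unfold cnt
    have e : ((Ico (a ^ 2) ((a + d) ^ 2)).image (fun s => 2 * R * s + R)).card =
        (a + d) ^ 2 - a ^ 2 := by
      rw [Finset.card_image_of_injective, Nat.card_Ico]
      intro s s' hs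
      exact Nat.eq_of_mul_eq_mul_left (show 0 < 2 * R by omega) (by simpa using hs)
    rw [← e, ← Finset.card_union_of_disjoint]
    · apply Finset.card_le_card
      intro m hm
      rw [Finset.mem_union] at hm
      rw [Finset.mem_filter, Finset.mem_range]
      rcases hm with hm | hm
      · rw [Finset.mem_filter, Finset.mem_range] at hm
        exact ⟨lt_of_lt_of_le hm.1 (Nat.mul_le_mul_left _ hsq), hm.2⟩
      · obtain ⟨s, hs, rfl⟩ := Finset.mem_image.mp hm
        refine ⟨?_, hit s hs⟩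
        have := Nat.mul_le_mul_left (2 * R) (Nat.succ_le_of_lt (Finset.mem_Ico.mp hs).2)
        rw [Nat.mul_succ] at this
        omega
    · rw [Finset.disjoint_left]
      intro m hm hm'
      obtain ⟨s, hs, rfl⟩ := Finset.mem_image.mp hm'
      have := Nat.mul_le_mul_left (2 * R) (Finset.mem_Ico.mp hs).1
      have := Finset.mem_range.mp (Finset.mem_filter.mp hm).1
      omega
  have g1 : N0 ≤ 2 * R * a ^ 2 := by
    have : a ≤ a ^ 2 := Nat.le_self_pow (by norm_num) a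
    have : a ^ 2 ≤ 2 * R * a ^ 2 := Nat.le_mul_of_pos_left _ (by omega)
    omega
  have g2 : N0 ≤ 2 * R * (a + d) ^ 2 := g1.trans (Nat.mul_le_mul_left _ hsq)
  obtain ⟨p1, p2⟩ := hN0 _ g1
  obtain ⟨p3, p4⟩ := hN0 _ g2
  rw [Real.dist_eq, abs_lt] at p1 p3
  have p1' := p1.1
  have p3' := p3.2
  rw [lt_sub_iff_add_lt, lt_div_iff₀ (by exact_mod_cast p2)] at p1'
  rw [sub_lt_iff_lt_add, div_lt_iff₀ (by exact_mod_cast p4)] at p3'
  have hc' : (cnt x (1 / 2 - δ) (1 / 2 + 2 * δ) (2 * R * a ^ 2) : ℝ) + ((a + d) ^ 2 - a ^ 2) ≤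
      cnt x (1 / 2 - δ) (1 / 2 + 2 * δ) (2 * R * (a + d) ^ 2) := by
    have : ((cnt x (1 / 2 - δ) (1 / 2 + 2 * δ) (2 * R * a ^ 2) + ((a + d) ^ 2 - a ^ 2) : ℕ) : ℝ) ≤
      cnt x (1 / 2 - δ) (1 / 2 + 2 * δ) (2 * R * (a + d) ^ 2) := by exact_mod_cast hc
    rw [Nat.cast_add, Nat.cast_sub hsq] at this
    exact_mod_cast this
  push_cast at p1' p3'
  have A0 : (0 : ℝ) < a := by exact_mod_cast (show 0 < a by omega)
  have D0 : (1 : ℝ) ≤ d := by exact_mod_cast d0
  have D2 : (a : ℝ) < k * (d + 1) := by exact_mod_cast d2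
  have D3 : (d : ℝ) ≤ a := by exact_mod_cast d3
  set u : ℝ := (a + d) ^ 2 - a ^ 2 with hu
  have u1 : 2 * a * d ≤ u := by rw [hu]; nlinarith
  have u0 : 0 ≤ u := le_trans (by positivity) u1
  have q1 : u < 3 * δ * (2 * R) * u + η * (2 * R) * (a ^ 2 + (a + d) ^ 2) := by
    rw [hu]; nlinarith
  have q2 : 3 * δ * (2 * R) * u ≤ 1 / 2 * u := mul_le_mul_of_nonneg_right (by linarith) u0
  have q3 : η * (2 * R) * (a ^ 2 + (a + d) ^ 2) ≤ η * (2 * R) * (5 * a ^ 2) :=
    mul_le_mul_of_nonneg_left (by nlinarith) (by positivity)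
  have q4 : η * (2 * R) * (5 * a ^ 2) = a ^ 2 / (4 * k) := by
    rw [hη]; field_simp; ring
  have q5 : (a : ℝ) * d < a ^ 2 / (4 * k) := by linarith
  rw [lt_div_iff₀ (by positivity)] at q5
  have q6 : (a : ℝ) < 2 * (k * d) := by nlinarith
  nlinarith [mul_pos A0 (mul_pos k0' (show (0 : ℝ) < d by linarith))]

theorem hard {α : ℝ} (hα : 1 < |α|) (G : ℕ → ℕ → Set (ℕ → ℕ)) (hG : ∀ i j, IsClosed (G i j)) :
    ∃ f : (ℕ → ℕ) → ℝ, Continuous f ∧
      f ⁻¹' {ξ : ℝ | UD (fun n => ξ * α ^ n)} = ⋂ i, ⋃ j, G i j := by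
  have q0 : 0 < |α|⁻¹ := by positivity
  have q1 : |α|⁻¹ < 1 := inv_lt_one_of_one_lt₀ hα
  obtain ⟨R, hR1, hR0⟩ := (((tendsto_self_mul_const_pow_of_lt_one q0.le q1).eventually
    (gt_mem_nhds (show (0 : ℝ) < 1 / 12 by norm_num))).and (eventually_gt_atTop 0)).exists
  have R1 : (1 : ℝ) ≤ R := by exact_mod_cast hR0
  have hR : 2 ≤ |α| ^ R := by
    have a1 : 0 < |α|⁻¹ ^ R := by positivity
    have a2 : |α|⁻¹ ^ R < 1 / 2 := by nlinarith
    rw [inv_pow, one_div, inv_lt_inv₀ (by positivity) (by norm_num)] at a2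
    exact a2.le
  obtain ⟨φ, hL, hb, hI, hU⟩ := tests
  obtain ⟨F, F1, F2, F3⟩ := core hα hR hR0 φ hL hb hI
  refine ⟨fun x => F (bad (yy G x)), ?_, ?_⟩
  · rw [continuous_iff_continuousAt]
    intro x
    rw [ContinuousAt, Metric.tendsto_nhds]
    intro ε hε
    obtain ⟨t, ht⟩ := exists_pow_lt_of_lt_one hε q1
    have ev : ∀ᶠ x' in 𝓝 x, ∀ m ∈ range (t + 1), x' m = x m := by
      refine (Finset.eventually_all _).mpr fun m _ => ?_
      have : ContinuousAt (fun x' : ℕ → ℕ => x' m) x := (continuous_apply m).continuousAt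
      exact this.eventually (p := fun b => b = x m) (by simp [nhds_discrete])
    filter_upwards [ev] with x' hx'
    rw [Real.dist_eq]
    refine lt_of_le_of_lt (F1 _ _ t fun s hs => ?_) ht
    unfold bad
    have := Nat.log_le_self 2 s
    rw [yy_loc G (x := x') (x' := x) fun m hm => hx' m (Finset.mem_range.mpr (by omega))]
  · ext x
    rw [yy_iff hG, Set.mem_preimage, Set.mem_ofPred_eq]
    constructor
    · intro h
      by_contra hc
      push Not at hc
      obtain ⟨k, hk⟩ := hc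
      exact not_ud hk hR0 (δ := |α|⁻¹ ^ R) (by positivity) (by linarith) (F2 _) h
    · intro h
      exact hU _ (F3 _ (bad_density h))

end Pool.Agent.H.MP_7a0c2d_lc
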